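import Pool.Agent.H93.TS.Fin2

/-!
# Arbitrary sums of torus knots `T(2,b)` against copies of `T(2,3)`, `T(2,5)` or `T(2,7)`

Let `a` be `3`, `5` or `7`, let `B` be any multiset of odd numbers and let `m` be any natural
number. The theorem contains the two facts which give `g_r(K) = g_4(K)` for the knot
`K = (#_{b ∈ B} T(2,b)) # - m T(2,a)`: see `HasGenus` in `Pool.Agent.H93.TS.Defs`.

The proof rests on a partition theorem for zero-sum sequences over `ℤ/a`, `a = 3, 5, 7` (`ZP` in
`Pool.Agent.H93.TS.ZP`).
-/

set_option autoImplicit false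

namespace Pool.Agent.Results.MP_177a0e_gt.OneAgainstAll

open Multiset Pool.Agent.H93.TS

/-- **Theorem.** Let `a` be `3`, `5` or `7`, let `B` be a multiset of odd numbers and `m` a natural
number. For some `g`, at most `2 g` splittings and mergings lead from `B` to `m` copies of `a`, and
the Tristram-Levine signature function of `K = (#_{b ∈ B} T(2,b)) # - m T(2,a)` is equal to `± 2 g`
on a nonempty open interval: `g_r(K) = g_4(K) = g`. -/
theorem result (a : ℕ) (ha : a = 3 ∨ a = 5 ∨ a = 7) (B : Multiset ℕ) (hB : ∀ b ∈ B, Odd b)
    (m : ℕ) : HasGenus B (replicate m a) := by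
  rcases ha with rfl | rfl | rfl
  · exact one_against_all (by decide) (by norm_num) zp3 hB m
  · exact one_against_all (by decide) (by norm_num) zp5 hB m
  · exact one_against_all (by decide) (by norm_num) zp7 hB m

end Pool.Agent.Results.MP_177a0e_gt.OneAgainstAll
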