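import Pool.Agent.H93.TS.Fin3

/-!
# Copies of `T(2,a)` against torus knots `T(2,b)` with `b` in few residue classes modulo `a`

Let `a > 1` be any odd number and `h` any integer, let `k = 2` or `k = -1`, and let `B` be any
multiset of odd numbers each of which is congruent to one of `0`, `1`, `-1`, `h`, `k h` modulo `a`.
The theorem contains the two facts which give `g_r(K) = g_4(K)` for all knots
`K = (#_{b ∈ B} T(2,b)) # - m T(2,a)`: see `HasGenus` in `Pool.Agent.H93.TS.Defs`.
-/

set_option autoImplicit false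

namespace Pool.Agent.Results.MP_177a0e_gt.ResidueClasses

open Multiset Pool.Agent.H93.TS

/-- **Theorem.** Let `a > 1` be odd, `h` an integer, `k = 2` or `k = -1`, `m` a natural number and `B`
a multiset of odd numbers each of which is congruent to `0`, `1`, `-1`, `h` or `k h` modulo `a`. For
some `g`, at most `2 g` splittings and mergings lead from `B` to `m` copies of `a`, and the
Tristram-Levine signature function of `K = (#_{b ∈ B} T(2,b)) # - m T(2,a)` is equal to `± 2 g` on a
nonempty open interval: `g_r(K) = g_4(K) = g`. -/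
theorem result (a : ℕ) (ha : Odd a) (ha1 : 1 < a) (h k : ℤ) (hk : k = 2 ∨ k = -1)
    (B : Multiset ℕ) (hB : ∀ b ∈ B, Odd b)
    (hres : ∀ b ∈ B, (b : ℤ) ≡ 0 [ZMOD a] ∨ (b : ℤ) ≡ 1 [ZMOD a] ∨ (b : ℤ) ≡ -1 [ZMOD a] ∨
      (b : ℤ) ≡ h [ZMOD a] ∨ (b : ℤ) ≡ k * h [ZMOD a]) (m : ℕ) :
    HasGenus B (replicate m a) := by
  refine one_against ha ha1 (fun X hX hs => ?_) hB m
  have hX' : ∀ x ∈ X, x = 0 ∨ x = 1 ∨ x = -1 ∨ x = (h : ZMod a) ∨
      x = ((k * h : ℤ) : ZMod a) := by
    intro x hx
    rcases hX x hx with h1 | h1 | ⟨b, hb, rfl⟩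
    · exact Or.inr (Or.inl h1)
    · exact Or.inr (Or.inr (Or.inl h1))
    · have key : ∀ c : ℤ, (b : ℤ) ≡ c [ZMOD a] → (b : ZMod a) = (c : ZMod a) := by
        intro c hc
        have := (ZMod.intCast_eq_intCast_iff (b : ℤ) c a).mpr hc
        rwa [Int.cast_natCast] at this
      rcases hres b hb with h1 | h1 | h1 | h1 | h1
      · exact Or.inl (by rw [key _ h1]; simp)
      · exact Or.inr (Or.inl (by rw [key _ h1]; simp))
      · exact Or.inr (Or.inr (Or.inl (by rw [key _ h1]; simp)))
      · exact Or.inr (Or.inr (Or.inr (Or.inl (key _ h1))))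
      · exact Or.inr (Or.inr (Or.inr (Or.inr (key _ h1))))
  rcases hk with rfl | rfl
  · exact good_h2h ha1 h X hX' hs
  · rw [neg_one_mul] at hX'
    exact good_hmh ha1 h X hX' hs

end Pool.Agent.Results.MP_177a0e_gt.ResidueClasses
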